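import Pool.Agent.TH682.HS.Up

/-!
# `NP` certificates of nonmembership from `NE = coNE`
-/

set_option autoImplicit false

namespace Pool.Agent.TH682.HS

open Pool.Agent.NPC Pool.Agent.H579R2.Spt Pool.Agent.TH682.GD
open Pool.Agent.TH684.EX (poly_of_polyTime)
open Pool.Agent.TH682.VC (PB two_pow_size_le)

/-- Certificates of nonmembership. -/
abbrev Cer := Crt × (ℕ × List Bool)

/-- Decoding of a certificate. -/
def dce (w : List Bool) : Cer := (unbits Cer w).getD ([], (0, []))

theorem dce_bits (q : Cer) : dce (bits q) = q := by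
  rw [dce, unbits_bits]
  rfl

theorem dce_poly : Poly dce := NPC.Poly.optGetD poly_unbits (NPC.Poly.const _)

/-- The input of the complementary exponential language. -/
def inq (x : List Bool) (q : Cer) : List Bool := bits (x.length, (q.2.1, q.1.length + 1))

/-- The check of a certificate of nonmembership. -/
def cv (f : List Bool → List ℕ) (V W : List Bool → List Bool) (p : Polynomial ℕ) (c : ℕ)
    (x : List Bool) (q : Cer) : Bool :=
  ck f V p ((x.length, q.2.1), q.1) &&
    (decide (W (pairBits (inq x q) q.2.2) = [true]) &&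
      (decide ((q.2.2.length - 1).bits.length ≤ c * ((inq x q).length + 1)) &&
        decide ((tbl [] (q.1.map (fun r => fa f q.2.1 r.1) ++ [fa f q.2.1 x])).length =
          q.1.length + 1)))

theorem cv_poly {f : List Bool → List ℕ} {V W : List Bool → List Bool} (p : Polynomial ℕ) (c : ℕ)
    (hf : Poly f) (hV : Poly V) (hW : Poly W) :
    Poly (fun r : List Bool × Cer => cv f V W p c r.1 r.2) := by
  have e1 : Poly (fun r : List Bool × Cer => r.1) := NPC.Poly.fst NPC.Poly.id
  have e2 : Poly (fun r : List Bool × Cer => r.2) := NPC.Poly.snd NPC.Poly.id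
  have e3 := NPC.Poly.fst e2
  have e4 := NPC.Poly.snd e2
  have e5 := NPC.Poly.fst e4
  have e6 := NPC.Poly.snd e4
  have e7 : Poly (fun r : List Bool × Cer => r.2.1.length + 1) :=
    ((UPoly.length e3).add (UPoly.const 1)).toPoly
  have e8 : Poly (fun r : List Bool × Cer => inq r.1 r.2) :=
    bits_poly.comp (NPC.Poly.pair (UPoly.length e1).toPoly (NPC.Poly.pair e5 e7))
  refine NPC.Poly.and ((ck_poly p hf hV).comp (NPC.Poly.pair (NPC.Poly.pair
    (UPoly.length e1).toPoly e5) e3)) (NPC.Poly.and ?_ (NPC.Poly.and ?_ ?_))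
  · exact NPC.Poly.decide_eq (hW.comp (Pool.Agent.H622R2.poly_pairBits e8 e6)) (NPC.Poly.const _)
  · refine NPC.Poly.decide_le (NPC.Poly.length (NPC.Poly.natBits ?_)) ?_
    · exact NPC.Poly.sub (NPC.Poly.length e6) (NPC.Poly.const 1)
    · exact ((UPoly.const c).mul ((UPoly.length e8).add (UPoly.const 1))).toPoly
  · refine NPC.Poly.decide_eq (NPC.Poly.length (tbl_poly (NPC.Poly.append ?_ ?_))) e7
    · refine NPC.Poly.map (l := fun r : List Bool × Cer => r.2.1)
        (F := fun r q => fa f r.2.2.1 q.1) e3 ?_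
      exact hf.comp (bits_poly.comp (NPC.Poly.pair (NPC.Poly.fst (NPC.Poly.snd NPC.Poly.id))
        (NPC.Poly.fst (NPC.Poly.snd (NPC.Poly.snd (NPC.Poly.fst NPC.Poly.id))))))
    · exact NPC.Poly.cons (hf.comp (bits_poly.comp (NPC.Poly.pair e1 e5))) (NPC.Poly.const [])

theorem length_bits_le {m k : ℕ} : (m - 1).bits.length ≤ k ↔ m ≤ 2 ^ k := by
  rw [Nat.size_eq_bits_len, Nat.size_le]
  have : 0 < 2 ^ k := Nat.two_pow_pos k
  omega

/-- Soundness. -/
theorem not_mem_of_cv {f : List Bool → List ℕ} {V W : List Bool → List Bool} {p : Polynomial ℕ}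
    {c : ℕ} {A : Set (List Bool)}
    (hVA : ∀ x, x ∈ A ↔ ∃ w : List Bool, w.length ≤ p.eval x.length ∧ V (pairBits x w) = [true])
    (hW : ∀ x, x ∈ (lang (Seq f A))ᶜ ↔
      ∃ w : List Bool, w.length ≤ 2 ^ (c * (x.length + 1)) ∧ W (pairBits x w) = [true])
    {x : List Bool} {q : Cer} (h : cv f V W p c x q = true) : x ∉ A := by
  unfold cv at h
  simp only [Bool.and_eq_true, decide_eq_true_eq, length_bits_le] at h
  obtain ⟨h1, h2, h3, h4⟩ := h
  intro hx
  have h5 : inq x q ∈ (lang (Seq f A))ᶜ := (hW _).2 ⟨_, h3, h2⟩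
  refine h5 ⟨(x.length, (q.2.1, q.1.length + 1)), rfl, q.1.map Prod.fst ++ [x], by simp, ?_, ?_⟩
  · intro y hy
    rcases List.mem_append.1 hy with hy | hy
    · exact (seq_of_ck hVA h1).1 y hy
    · rw [List.mem_singleton] at hy
      subst hy
      exact ⟨rfl, hx⟩
  · rw [List.map_append, List.map_map]
    exact h4

theorem seq_le {f : List Bool → List ℕ} {A : Set (List Bool)} {n a N : ℕ}
    {H : Subgroup (Equiv.Perm (Fin N))}
    (hH : ∀ x : List Bool, x.length = n → ∃ σ : Equiv.Perm (Fin N),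
      f (bits (x, a)) = vals σ ∧ (x ∈ A ↔ σ ∈ H)) {xs : List (List Bool)}
    (h2 : ∀ x ∈ xs, x.length = n ∧ x ∈ A) :
    Tab N (tbl [] (xs.map (fa f a))) ∧ (∀ v ∈ tbl [] (xs.map (fa f a)), InH H v) := by
  classical
  choose! s hs using fun x (hx : x ∈ xs) => hH x (h2 x hx).1
  have h3 : xs.map (fa f a) = (xs.map s).map vals := by
    rw [List.map_map]
    exact List.map_congr_left fun x hx => (hs x hx).1
  rw [h3]
  obtain ⟨h4, _, h5, _⟩ := tbl_spec (xs.map s) [] (tab_nil N)
  refine ⟨h4, h5 H (by simp) fun σ hσ => ?_⟩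
  obtain ⟨x, hx, rfl⟩ := List.mem_map.1 hσ
  exact (hs x hx).2.1 (h2 x hx).2

/-- Completeness. -/
theorem exists_cv {f : List Bool → List ℕ} {V W : List Bool → List Bool} {p : Polynomial ℕ}
    {c : ℕ} {A : Set (List Bool)}
    (hVA : ∀ x, x ∈ A ↔ ∃ w : List Bool, w.length ≤ p.eval x.length ∧ V (pairBits x w) = [true])
    (hW : ∀ x, x ∈ (lang (Seq f A))ᶜ ↔
      ∃ w : List Bool, w.length ≤ 2 ^ (c * (x.length + 1)) ∧ W (pairBits x w) = [true])
    {n a N : ℕ} {H : Subgroup (Equiv.Perm (Fin N))}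
    (hH : ∀ x : List Bool, x.length = n → ∃ σ : Equiv.Perm (Fin N),
      f (bits (x, a)) = vals σ ∧ (x ∈ A ↔ σ ∈ H))
    {x : List Bool} (hx : x.length = n) (hxA : x ∉ A) :
    ∃ (ws : Crt) (u : List Bool), cv f V W p c x (ws, (a, u)) = true ∧ ws.length ≤ N ^ 2 ∧
      sz ws ≤ N ^ 2 * (4 * n + 4 * p.eval n + 4) + 1 ∧
      u.length ≤ 2 ^ (c * ((bits (n, (a, ws.length + 1))).length + 1)) := by
  classical
  set P : ℕ → Prop := fun k => Seq f A (n, (a, k)) with hP
  have hle : ∀ k, P k → k ≤ N ^ 2 := by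
    rintro k ⟨xs, h1, h2, h3⟩
    have h4 := tab_length_le (seq_le hH h2).1
    rw [h3] at h4
    exact h4
  have hP0 : P 0 := ⟨[], rfl, by simp, rfl⟩
  obtain ⟨K, hK, hK'⟩ : ∃ K, P K ∧ ¬ P (K + 1) := by
    by_contra hcon
    push Not at hcon
    have : ∀ k, P k := fun k => by
      induction k with
      | zero => exact hP0
      | succ k ih => exact hcon k ih
    have := hle _ (this (N ^ 2 + 1))
    omega
  obtain ⟨xs, h1, h2, h3⟩ := hK
  simp only at h1 h2 h3
  obtain ⟨ws, h4, h5, h6, h7⟩ := ck_of_seq (f := f) (V := V) (p := p) hVA h1 h2 h3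
  obtain ⟨u, h8, h9⟩ := (hW (bits (n, (a, K + 1)))).1 (by
    rintro ⟨q, hq, hq'⟩
    rw [bits_injective hq] at hq'
    exact hK' hq')
  have hKN : K ≤ N ^ 2 := hle K ⟨xs, h1, h2, h3⟩
  refine ⟨ws, u, ?_, h4.trans_le hKN, h7.trans ?_, ?_⟩
  · unfold cv inq
    simp only [Bool.and_eq_true, decide_eq_true_eq, length_bits_le, hx, h4]
    refine ⟨h6, h9, h8, ?_⟩
    have h10 : ws.map (fun r => fa f a r.1) = xs.map (fa f a) := by
      rw [← h5, List.map_map]
      rfl
    rw [h10, tbl_append]
    obtain ⟨h11, h12⟩ := seq_le hH h2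
    obtain ⟨σ, h13, h14⟩ := hH x hx
    show (ins (tbl [] (xs.map (fa f a))) (fa f a x)).length = K + 1
    have h15 : fa f a x = vals σ := h13
    rw [h15]
    obtain ⟨_, h16, _, h17⟩ := ins_spec h11 σ
    have h18 : (ins (tbl [] (xs.map (fa f a))) (vals σ)).length ≠
        (tbl [] (xs.map (fa f a))).length := fun h => hxA (h14.2 (h17 h H h12))
    have h19 : (ins (tbl [] (xs.map (fa f a))) (vals σ)).length ≤
        (tbl [] (xs.map (fa f a))).length + 1 := by
      unfold GD.ins
      split_ifs <;> simp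
    omega
  · exact Nat.add_le_add_right (Nat.mul_le_mul_right _ hKN) 1
  · rw [h4]
    exact h8

/-- **If `NE` is closed under complement, then a set in `NP` which reduces to membership in
nonuniform permutation groups has a complement in `NP`.** -/
theorem compl_inNP (hNE : ∀ L : Set (List Bool), InNE L → InNE Lᶜ) {A : Set (List Bool)}
    (hA : InNP A) (hG : GroupMember A) : InNP Aᶜ := by
  classical
  obtain ⟨f, b, hf, hG⟩ := hG
  have hfp : Poly f := poly_of_polyTime hf
  obtain ⟨W, c, hWt, hW⟩ := hNE _ (seq_inNE hfp hA)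
  obtain ⟨V, p, hVt, hVA⟩ := hA
  have hVp : Poly V := PIso.poly_iff.2 hVt
  have hWp : Poly W := PIso.poly_iff.2 hWt
  obtain ⟨pf, hpf⟩ := (hfp.comp (bits_poly (α := List Bool × ℕ))).sz_le
  -- the bound of the number of points
  set Nb : ℕ → ℕ := fun n => pf.eval (4 * n + 4 * (n ^ b + b) + 3) with hNb
  have hNPB : PB Nb := by
    refine ⟨pf.comp (Polynomial.C 4 * Polynomial.X + Polynomial.C 4 * (Polynomial.X ^ b +
      Polynomial.C b) + 3), fun n => le_of_eq ?_⟩
    rw [Polynomial.eval_comp]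
    simp [hNb]
  set F : ℕ → ℕ := fun n => (Nb n ^ 2 * (4 * n + 4 * p.eval n + 4) + 1) +
    ((4 * (n ^ b + b) + 1) + (4 * (2 ^ (6 * c) * (((2 * n + 1) ^ 4 * (2 * (n ^ b + b) + 1) ^ 4) *
      (2 * (Nb n ^ 2 + 1) + 1) ^ 4) ^ c) + 1) + 1) + 1 with hF
  have hFPB : PB F := by
    have i0 : PB (fun n => n) := PB.id
    have i1 : PB (fun n => 4 * n + 4 * p.eval n + 4) :=
      (((PB.const 4).mul i0).add ((PB.const 4).mul ⟨p, fun n => le_rfl⟩)).add (PB.const 4)
    have i2 : PB (fun n => n ^ b + b) := (i0.pow b).add (PB.const b)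
    have i3 : PB (fun n => (2 * n + 1) ^ 4) := (((PB.const 2).mul i0).add (PB.const 1)).pow 4
    have i4 : PB (fun n => (2 * (n ^ b + b) + 1) ^ 4) :=
      (((PB.const 2).mul i2).add (PB.const 1)).pow 4
    have i5 : PB (fun n => (2 * (Nb n ^ 2 + 1) + 1) ^ 4) :=
      (((PB.const 2).mul ((hNPB.pow 2).add (PB.const 1))).add (PB.const 1)).pow 4
    have i6 : PB (fun n => 4 * (2 ^ (6 * c) * (((2 * n + 1) ^ 4 * (2 * (n ^ b + b) + 1) ^ 4) *
        (2 * (Nb n ^ 2 + 1) + 1) ^ 4) ^ c) + 1) :=
      ((PB.const 4).mul ((PB.const _).mul (((i3.mul i4).mul i5).pow c))).add (PB.const 1)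
    exact ((((hNPB.pow 2).mul i1).add (PB.const 1)).add (((((PB.const 4).mul i2).add
      (PB.const 1)).add i6).add (PB.const 1))).add (PB.const 1)
  obtain ⟨q, hq⟩ := hFPB
  refine ⟨fun z => [cv f V W p c (unpair z).1 (dce (unpair z).2)], q, polyTime_of_poly
    ((cv_poly p c hfp hVp hWp).comp (NPC.Poly.pair (NPC.Poly.fst poly_unpair)
      (dce_poly.comp (NPC.Poly.snd poly_unpair)))), fun x => ?_⟩
  simp only [unpair_pairBits, List.cons.injEq, and_true]
  constructor
  · intro hx
    obtain ⟨a, ha, N, H, hH⟩ := hG x.length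
    obtain ⟨ws, u, h1, h2, h3, h4⟩ := exists_cv (f := f) (V := V) (W := W) (p := p) (c := c)
      hVA hW hH rfl hx
    refine ⟨bits (ws, (a, u)), ?_, ?_⟩
    · refine le_trans ?_ (hq x.length)
      rw [bits_length, sz_pair, sz_pair]
      -- the number of points
      have hN : N ≤ Nb x.length := by
        obtain ⟨σ, h5, _⟩ := hH x rfl
        have h6 := hpf (x, a)
        have h7 := length_lt_sz (f (bits (x, a)))
        rw [h5, vals_length] at h7
        rw [h5] at h6
        refine (h7.le.trans h6).trans (eval_mono pf ?_)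
        rw [sz_pair]
        have h8 := sz_listBool_le x
        have h9 := sz_nat_le a
        have h10 : a.size ≤ a := Nat.size_le.2 Nat.lt_two_pow_self
        omega
      have hN2 : N ^ 2 ≤ Nb x.length ^ 2 := Nat.pow_le_pow_left hN 2
      have h5 : sz ws ≤ Nb x.length ^ 2 * (4 * x.length + 4 * p.eval x.length + 4) + 1 :=
        h3.trans (Nat.add_le_add_right (Nat.mul_le_mul_right _ hN2) 1)
      have h6 : sz a ≤ 4 * (x.length ^ b + b) + 1 := by
        have h9 := sz_nat_le a
        have h10 : a.size ≤ a := Nat.size_le.2 Nat.lt_two_pow_self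
        omega
      have h7 : sz u ≤ 4 * (2 ^ (6 * c) * (((2 * x.length + 1) ^ 4 *
          (2 * (x.length ^ b + b) + 1) ^ 4) * (2 * (Nb x.length ^ 2 + 1) + 1) ^ 4) ^ c) + 1 := by
        have h8 := sz_listBool_le u
        have h9 : u.length ≤ 2 ^ (6 * c) * (((2 * x.length + 1) ^ 4 *
            (2 * (x.length ^ b + b) + 1) ^ 4) * (2 * (Nb x.length ^ 2 + 1) + 1) ^ 4) ^ c := by
          refine h4.trans ?_
          rw [bits_length, sz_pair, sz_pair]
          have k1 := sz_nat_le x.length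
          have k2 := sz_nat_le a
          have k3 := sz_nat_le (ws.length + 1)
          have k4 : 2 ^ (c * (sz x.length + (sz a + sz (ws.length + 1) + 1) + 1 + 1)) ≤
              2 ^ (6 * c) * (((2 ^ x.length.size) ^ 4 * (2 ^ a.size) ^ 4) *
                (2 ^ (ws.length + 1).size) ^ 4) ^ c := by
            simp only [← pow_mul, ← pow_add]
            refine Nat.pow_le_pow_right (by norm_num) ?_
            have : sz x.length + (sz a + sz (ws.length + 1) + 1) + 1 + 1 ≤
                6 + (x.length.size * 4 + a.size * 4 + (ws.length + 1).size * 4) := by omega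
            calc c * (sz x.length + (sz a + sz (ws.length + 1) + 1) + 1 + 1)
                ≤ c * (6 + (x.length.size * 4 + a.size * 4 + (ws.length + 1).size * 4)) :=
                  Nat.mul_le_mul_left _ this
              _ = _ := by ring
          refine k4.trans (Nat.mul_le_mul_left _ (Nat.pow_le_pow_left ?_ c))
          refine Nat.mul_le_mul (Nat.mul_le_mul ?_ ?_) ?_
          · exact Nat.pow_le_pow_left (two_pow_size_le _) 4
          · refine Nat.pow_le_pow_left ((two_pow_size_le _).trans ?_) 4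
            omega
          · refine Nat.pow_le_pow_left ((two_pow_size_le _).trans ?_) 4
            omega
        omega
      simp only [hF]
      omega
    · rw [dce_bits]
      exact h1
  · rintro ⟨w, _, h⟩
    exact not_mem_of_cv hVA hW h

end Pool.Agent.TH682.HS
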