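import Pool.Agent.TH682.GD.Blk
import Pool.Agent.NPC.Classes

/-!
# Nondeterministic exponential time, and membership in nonuniform permutation groups: definitions

Polynomial time is Mathlib's `Turing.TM2ComputableInPolyTime` (through `Pool.Agent.NPC.PolyTime`).
-/

set_option autoImplicit false

namespace Pool.Agent.TH682.HS

open Pool.Agent.NPC Pool.Agent.TH682.GD

/-- Nondeterministic time `2 ^ O(n)`: certificates of length at most `2 ^ (c (n + 1))`, verifiable in
time polynomial in the length of input and certificate. -/
def InNE (L : Set (List Bool)) : Prop :=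
  ∃ (V : List Bool → List Bool) (c : ℕ), PolyTime V ∧
    ∀ x, x ∈ L ↔ ∃ w : List Bool, w.length ≤ 2 ^ (c * (x.length + 1)) ∧ V (pairBits x w) = [true]

/-- The set `A` reduces to membership in nonuniform permutation groups: there are a function `f`,
computable in polynomial time, and, for every `n`, a number `a` (advice), at most `n ^ b + b`, a
number `N` and a subgroup `H` of the symmetric group on `N` points such that for all strings `x` of
length `n` the value `f (x, a)` is a permutation `σ` of the `N` points (given by the list of its
values), and `x ∈ A` if and only if `σ ∈ H`. The group `H` is arbitrary, and may depend on `n` in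
any way. -/
def GroupMember (A : Set (List Bool)) : Prop :=
  ∃ (f : List Bool → List ℕ) (b : ℕ), PolyTime (fun z => bits (f z)) ∧
    ∀ n : ℕ, ∃ a : ℕ, a ≤ n ^ b + b ∧ ∃ (N : ℕ) (H : Subgroup (Equiv.Perm (Fin N))),
      ∀ x : List Bool, x.length = n → ∃ σ : Equiv.Perm (Fin N),
        f (bits (x, a)) = vals σ ∧ (x ∈ A ↔ σ ∈ H)

end Pool.Agent.TH682.HS
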