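import Pool.Agent.TH682.HS.Co

/-!
# From `NP` certificates of nonmembership to `NE = coNE`
-/

set_option autoImplicit false

namespace Pool.Agent.TH682.HS

open Pool.Agent.NPC Pool.Agent.H579R2.Spt Pool.Agent.TH682.GD
open Pool.Agent.TH684.EX (poly_of_polyTime)
open Pool.Agent.TH682.VC (num str bits_num str_num num_poly str_poly num_lt)

/-- The unary version of a set. -/
def una (L : Set (List Bool)) : Set (List Bool) :=
  {y | ∃ x ∈ L, y = List.replicate (num x) true}

theorem num_injective : Function.Injective num := fun x y h => by
  rw [← str_num x, ← str_num y, h]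

theorem mem_una {L : Set (List Bool)} {x : List Bool} :
    List.replicate (num x) true ∈ una L ↔ x ∈ L := by
  constructor
  · rintro ⟨y, hy, h⟩
    have h1 := congrArg List.length h
    rw [List.length_replicate, List.length_replicate] at h1
    rwa [num_injective h1]
  · intro h
    exact ⟨x, h, rfl⟩

theorem two_pow_le_num (x : List Bool) : 2 ^ x.length ≤ num x := by
  have h1 := congrArg List.length (bits_num x)
  rw [Nat.size_eq_bits_len, List.length_append, List.length_singleton] at h1
  by_contra h
  have := Nat.size_le.2 (not_le.1 h)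
  omega

/-- The verifier of the unary version. -/
def uv (V : List Bool → List Bool) (c : ℕ) (r : List Bool × List Bool) : Bool :=
  r.1.all id && (decide (num (str r.1.length) = r.1.length) &&
    (decide (r.2.length ≤ 2 ^ (c * ((str r.1.length).length + 1))) &&
      decide (V (pairBits (str r.1.length) r.2) = [true])))

theorem str_length_le (m : ℕ) : (str m).length + 1 ≤ m.size + 1 := by
  rw [str, List.length_dropLast, Nat.size_eq_bits_len]
  omega

theorem uv_poly {V : List Bool → List Bool} (c : ℕ) (hV : Poly V) : Poly (uv V c) := by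
  have e1 : Poly (fun r : List Bool × List Bool => r.1) := NPC.Poly.fst NPC.Poly.id
  have e2 : Poly (fun r : List Bool × List Bool => r.2) := NPC.Poly.snd NPC.Poly.id
  have e3 : Poly (fun r : List Bool × List Bool => str r.1.length) :=
    str_poly.comp (NPC.Poly.length e1)
  refine NPC.Poly.and ?_ (NPC.Poly.and (NPC.Poly.decide_eq (num_poly.comp e3)
    (NPC.Poly.length e1)) (NPC.Poly.and ?_ (NPC.Poly.decide_eq
      (hV.comp (Pool.Agent.H622R2.poly_pairBits e3 e2)) (NPC.Poly.const _))))
  · exact NPC.Poly.all (l := fun r : List Bool × List Bool => r.1) (p := fun _ b => b) e1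
      (NPC.Poly.snd NPC.Poly.id)
  · have h1 : Poly (fun r : List Bool × List Bool => decide ((r.2.length - 1).bits.length ≤
        c * ((str r.1.length).length + 1))) :=
      NPC.Poly.decide_le (NPC.Poly.length (NPC.Poly.natBits (NPC.Poly.sub (NPC.Poly.length e2)
        (NPC.Poly.const 1)))) ((UPoly.const c).mul ((UPoly.length e3).add
          (UPoly.const 1))).toPoly
    refine h1.congr fun r => ?_
    exact decide_eq_decide.2 length_bits_le

theorem replicate_of_all {y : List Bool} (h : y.all id = true) :
    y = List.replicate y.length true := by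
  rw [List.eq_replicate_iff]
  refine ⟨rfl, fun b hb => ?_⟩
  rw [List.all_eq_true] at h
  exact h b hb

theorem una_inNP {L : Set (List Bool)} (hL : InNE L) : InNP (una L) := by
  obtain ⟨V, c, hV, hVL⟩ := hL
  have hVp : Poly V := PIso.poly_iff.2 hV
  refine ⟨fun z => [uv V c (unpair z)], (Polynomial.C 2 * Polynomial.X) ^ c,
    polyTime_of_poly ((uv_poly c hVp).comp poly_unpair), fun y => ?_⟩
  simp only [unpair_pairBits, List.cons.injEq, and_true]
  constructor
  · rintro ⟨x, hx, rfl⟩
    obtain ⟨w, h1, h2⟩ := (hVL x).1 hx
    refine ⟨w, ?_, ?_⟩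
    · simp only [Polynomial.eval_pow, Polynomial.eval_mul, Polynomial.eval_C, Polynomial.eval_X,
        List.length_replicate]
      refine h1.trans ?_
      rw [mul_comm, pow_mul]
      refine Nat.pow_le_pow_left ?_ c
      rw [pow_succ']
      exact Nat.mul_le_mul_left 2 (two_pow_le_num x)
    · unfold uv
      simp only [List.length_replicate, str_num, Bool.and_eq_true, decide_eq_true_eq]
      refine ⟨?_, trivial, h1, h2⟩
      rw [List.all_eq_true]
      intro b hb
      exact List.eq_of_mem_replicate hb
  · rintro ⟨w, _, h⟩
    unfold uv at h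
    simp only [Bool.and_eq_true, decide_eq_true_eq] at h
    obtain ⟨h1, h2, h3, h4⟩ := h
    refine ⟨str y.length, (hVL _).2 ⟨w, h3, h4⟩, ?_⟩
    rw [h2]
    exact replicate_of_all h1

/-- Sets of strings over one letter reduce to membership in groups. -/
theorem una_group (L : Set (List Bool)) : GroupMember (una L) := by
  classical
  have hf : Poly (fun z : List Bool => if (dia z).1.all id = true ∧ (dia z).2 = 1 then [0, 1]
      else [1, 0]) := by
    have h1 : Poly (fun z : List Bool => (dia z).1.all id) :=
      NPC.Poly.all (l := fun z : List Bool => (dia z).1) (p := fun _ b => b)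
        (NPC.Poly.fst dia_poly) (NPC.Poly.snd NPC.Poly.id)
    have h2 : Poly (fun z : List Bool => decide ((dia z).1.all id = true ∧ (dia z).2 = 1)) := by
      refine (NPC.Poly.and h1 (NPC.Poly.decide_eq (NPC.Poly.snd dia_poly)
        (NPC.Poly.const 1))).congr fun z => ?_
      rw [Bool.decide_and, Bool.decide_eq_true]
    exact NPC.Poly.ite h2 (NPC.Poly.const _) (NPC.Poly.const _)
  refine ⟨fun z => if (dia z).1.all id = true ∧ (dia z).2 = 1 then [0, 1] else [1, 0], 1,
    polyTime_bits hf, fun n => ?_⟩
  refine ⟨if List.replicate n true ∈ una L then 1 else 0, ?_, 2, ⊥, fun x hx => ?_⟩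
  · split_ifs <;> omega
  by_cases h1 : x.all id = true
  · have h2 : x = List.replicate n true := by
      rw [← hx]
      exact replicate_of_all h1
    by_cases h3 : List.replicate n true ∈ una L
    · refine ⟨1, ?_, ?_⟩
      · simp only [dia_bits, h1, h3, if_true, and_self]
        decide
      · rw [h2]
        simp [h3]
    · refine ⟨Equiv.swap 0 1, ?_, ?_⟩
      · simp only [dia_bits, h3, if_false, zero_ne_one, and_false]
        decide
      · rw [h2]
        simp only [h3, false_iff, Subgroup.mem_bot]
        decide
  · refine ⟨Equiv.swap 0 1, ?_, ?_⟩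
    · have h5 : ¬ ((dia (bits (x, if List.replicate n true ∈ una L then 1 else 0))).1.all id =
          true ∧ (dia (bits (x, if List.replicate n true ∈ una L then 1 else 0))).2 = 1) := by
        rw [dia_bits]
        exact fun h => h1 h.1
      show (if _ then _ else _) = _
      rw [if_neg h5]
      decide
    · have h4 : x ∉ una L := by
        rintro ⟨y, _, rfl⟩
        apply h1
        rw [List.all_eq_true]
        intro b hb
        exact List.eq_of_mem_replicate hb
      simp only [h4, false_iff, Subgroup.mem_bot]
      decide

theorem length_pairBits' (x w : List Bool) :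
    (pairBits x w).length = 2 * x.length + 1 + w.length := by
  unfold pairBits
  rw [List.length_append, List.length_flatMap]
  simp
  omega

/-- From the complement of the unary version. -/
theorem compl_inNE {L : Set (List Bool)} (h : InNP (una L)ᶜ) : InNE Lᶜ := by
  obtain ⟨V, p, hV, hVL⟩ := h
  have hVp : Poly V := PIso.poly_iff.2 hV
  obtain ⟨e, he⟩ := exists_pow_bound (Polynomial.C 2 * Polynomial.X + 1 + p)
  set D : List Bool × List Bool → Bool := fun r =>
    (unpair r.2).1.all id && (decide ((unpair r.2).1.length = num r.1) &&
      (decide ((unpair r.2).2.length ≤ p.eval (unpair r.2).1.length) &&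
        decide (V (pairBits (unpair r.2).1 (unpair r.2).2) = [true]))) with hD
  have hDp : Poly D := by
    have e1 : Poly (fun r : List Bool × List Bool => r.1) := NPC.Poly.fst NPC.Poly.id
    have e2 : Poly (fun r : List Bool × List Bool => unpair r.2) :=
      poly_unpair.comp (NPC.Poly.snd NPC.Poly.id)
    have e3 := NPC.Poly.fst e2
    have e4 := NPC.Poly.snd e2
    refine NPC.Poly.and ?_ (NPC.Poly.and (NPC.Poly.decide_eq (NPC.Poly.length e3)
      (num_poly.comp e1)) (NPC.Poly.and (NPC.Poly.decide_le (NPC.Poly.length e4)
        ((UPoly.length e3).eval p).toPoly) (NPC.Poly.decide_eq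
          (hVp.comp (Pool.Agent.H622R2.poly_pairBits e3 e4)) (NPC.Poly.const _))))
    exact NPC.Poly.all (l := fun r : List Bool × List Bool => (unpair r.2).1)
      (p := fun _ b => b) e3 (NPC.Poly.snd NPC.Poly.id)
  refine ⟨fun z => [D (unpair z)], e, polyTime_of_poly (hDp.comp poly_unpair), fun x => ?_⟩
  simp only [unpair_pairBits, List.cons.injEq, and_true]
  constructor
  · intro hx
    obtain ⟨w, h1, h2⟩ := (hVL (List.replicate (num x) true)).1 (fun h => hx (mem_una.1 h))
    refine ⟨pairBits (List.replicate (num x) true) w, ?_, ?_⟩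
    · rw [length_pairBits']
      rw [List.length_replicate] at h1 ⊢
      have h3 := (num_lt x).le
      have h4 := eval_mono p h3
      have h5 := he (2 ^ (x.length + 1)) (by
        calc 2 = 2 ^ 1 := (pow_one 2).symm
          _ ≤ _ := Nat.pow_le_pow_right (by norm_num) (by omega))
      simp only [Polynomial.eval_add, Polynomial.eval_mul, Polynomial.eval_C, Polynomial.eval_X,
        Polynomial.eval_one] at h5
      rw [mul_comm e (x.length + 1), pow_mul]
      omega
    · simp only [hD, unpair_pairBits, Bool.and_eq_true, decide_eq_true_eq, List.length_replicate]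
      rw [List.length_replicate] at h1
      refine ⟨?_, trivial, h1, h2⟩
      rw [List.all_eq_true]
      intro b hb
      exact List.eq_of_mem_replicate hb
  · rintro ⟨w, _, h⟩
    simp only [hD, Bool.and_eq_true, decide_eq_true_eq] at h
    obtain ⟨h1, h2, h3, h4⟩ := h
    intro hx
    have h5 : (unpair w).1 ∈ (una L)ᶜ := (hVL _).2 ⟨_, h3, h4⟩
    apply h5
    rw [replicate_of_all h1, h2]
    exact mem_una.2 hx

end Pool.Agent.TH682.HS
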