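import Pool.Agent.TH682.HS.Defs
import Pool.Agent.TH682.GD.Thm
import Pool.Agent.TH682.VC.Excl

/-!
# `NE = coNE` gives `NP` proofs of nonmembership
-/

set_option autoImplicit false

namespace Pool.Agent.TH682.HS

open Pool.Agent.NPC Pool.Agent.H579R2.Spt Pool.Agent.TH682.GD
open Pool.Agent.TH684.EX (poly_of_polyTime)
open Pool.Agent.TH682.VC (PB two_pow_size_le)
open Pool.Agent.W901.FH (pow_polyc pow_upolyc)

/-- The permutation of a string. -/
def fa (f : List Bool → List ℕ) (a : ℕ) (x : List Bool) : List ℕ := f (bits (x, a))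

/-- There is a sequence of `k` members of length `n` with `k` insertions. -/
def Seq (f : List Bool → List ℕ) (A : Set (List Bool)) (q : ℕ × (ℕ × ℕ)) : Prop :=
  ∃ xs : List (List Bool), xs.length = q.2.2 ∧ (∀ x ∈ xs, x.length = q.1 ∧ x ∈ A) ∧
    (tbl [] (xs.map (fa f q.2.1))).length = q.2.2

/-- Certificates: members with witnesses. -/
abbrev Crt := List (List Bool × List Bool)

/-- The check of a certificate. -/
def ck (f : List Bool → List ℕ) (V : List Bool → List Bool) (p : Polynomial ℕ)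
    (r : (ℕ × ℕ) × Crt) : Bool :=
  r.2.all (fun q => decide (q.1.length = r.1.1) && (decide (q.2.length ≤ p.eval q.1.length) &&
    decide (V (pairBits q.1 q.2) = [true]))) &&
      decide ((tbl [] (r.2.map (fun q => fa f r.1.2 q.1))).length = r.2.length)

theorem ck_poly {f : List Bool → List ℕ} {V : List Bool → List Bool} (p : Polynomial ℕ)
    (hf : Poly f) (hV : Poly V) : Poly (ck f V p) := by
  have e2 : Poly (fun r : (ℕ × ℕ) × Crt => r.2) := NPC.Poly.snd NPC.Poly.id
  refine NPC.Poly.and ?_ ?_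
  · refine NPC.Poly.all (l := fun r : (ℕ × ℕ) × Crt => r.2)
      (p := fun r q => decide (q.1.length = r.1.1) && (decide (q.2.length ≤ p.eval q.1.length) &&
        decide (V (pairBits q.1 q.2) = [true]))) e2 ?_
    have a1 : Poly (fun s : ((ℕ × ℕ) × Crt) × (List Bool × List Bool) => s.2.1) :=
      NPC.Poly.fst (NPC.Poly.snd NPC.Poly.id)
    have a2 : Poly (fun s : ((ℕ × ℕ) × Crt) × (List Bool × List Bool) => s.2.2) :=
      NPC.Poly.snd (NPC.Poly.snd NPC.Poly.id)
    have a3 : Poly (fun s : ((ℕ × ℕ) × Crt) × (List Bool × List Bool) => s.1.1.1) :=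
      NPC.Poly.fst (NPC.Poly.fst (NPC.Poly.fst NPC.Poly.id))
    exact NPC.Poly.and (NPC.Poly.decide_eq (NPC.Poly.length a1) a3)
      (NPC.Poly.and (NPC.Poly.decide_le (NPC.Poly.length a2) ((UPoly.length a1).eval p).toPoly)
        (NPC.Poly.decide_eq (hV.comp (Pool.Agent.H622R2.poly_pairBits a1 a2)) (NPC.Poly.const _)))
  · refine NPC.Poly.decide_eq (NPC.Poly.length (tbl_poly ?_)) (NPC.Poly.length e2)
    refine NPC.Poly.map (l := fun r : (ℕ × ℕ) × Crt => r.2) (F := fun r q => fa f r.1.2 q.1) e2 ?_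
    exact hf.comp (bits_poly.comp (NPC.Poly.pair (NPC.Poly.fst (NPC.Poly.snd NPC.Poly.id))
      (NPC.Poly.snd (NPC.Poly.fst (NPC.Poly.fst NPC.Poly.id)))))

/-- From a checked certificate to a sequence. -/
theorem seq_of_ck {f : List Bool → List ℕ} {V : List Bool → List Bool} {p : Polynomial ℕ}
    {A : Set (List Bool)}
    (hVA : ∀ x, x ∈ A ↔ ∃ w : List Bool, w.length ≤ p.eval x.length ∧ V (pairBits x w) = [true])
    {n a : ℕ} {ws : Crt} (h : ck f V p ((n, a), ws) = true) :
    (∀ x ∈ ws.map Prod.fst, x.length = n ∧ x ∈ A) ∧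
      (tbl [] ((ws.map Prod.fst).map (fa f a))).length = ws.length := by
  unfold ck at h
  simp only [Bool.and_eq_true, List.all_eq_true, decide_eq_true_eq] at h
  refine ⟨fun x hx => ?_, ?_⟩
  · obtain ⟨q, hq, rfl⟩ := List.mem_map.1 hx
    obtain ⟨h1, h2, h3⟩ := h.1 q hq
    exact ⟨h1, (hVA _).2 ⟨q.2, h2, h3⟩⟩
  · rw [List.map_map]
    exact h.2

/-- From a sequence to a certificate. -/
theorem ck_of_seq {f : List Bool → List ℕ} {V : List Bool → List Bool} {p : Polynomial ℕ}
    {A : Set (List Bool)}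
    (hVA : ∀ x, x ∈ A ↔ ∃ w : List Bool, w.length ≤ p.eval x.length ∧ V (pairBits x w) = [true])
    {n a k : ℕ} {xs : List (List Bool)} (h1 : xs.length = k)
    (h2 : ∀ x ∈ xs, x.length = n ∧ x ∈ A) (h3 : (tbl [] (xs.map (fa f a))).length = k) :
    ∃ ws : Crt, ws.length = k ∧ ws.map Prod.fst = xs ∧ ck f V p ((n, a), ws) = true ∧
      sz ws ≤ k * (4 * n + 4 * p.eval n + 4) + 1 := by
  classical
  choose! W hW using fun x (hx : x ∈ xs) => (hVA x).1 (h2 x hx).2
  refine ⟨xs.map (fun x => (x, W x)), by simpa using h1, ?_, ?_, ?_⟩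
  · rw [List.map_map]
    exact (List.map_congr_left fun x _ => rfl).trans (List.map_id xs)
  · unfold ck
    simp only [Bool.and_eq_true, List.all_eq_true, decide_eq_true_eq]
    refine ⟨fun q hq => ?_, ?_⟩
    · obtain ⟨x, hx, rfl⟩ := List.mem_map.1 hq
      exact ⟨(h2 x hx).1, (hW x hx).1, (hW x hx).2⟩
    · rw [List.map_map, List.length_map, h1, ← h3]
      rfl
  · have h4 := sz_le_length_mul (xs.map (fun x => (x, W x))) (4 * n + 4 * p.eval n + 3)
      fun q hq => by
        obtain ⟨x, hx, rfl⟩ := List.mem_map.1 hq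
        rw [sz_pair]
        have h5 := sz_listBool_le x
        have h6 := sz_listBool_le (W x)
        have h7 := (hW x hx).1
        rw [(h2 x hx).1] at h5 h7
        omega
    rw [List.length_map, h1] at h4
    exact h4

/-- The language of the lengths of sequences is in `NE`. -/
theorem seq_inNE {f : List Bool → List ℕ} {A : Set (List Bool)} (hf : Poly f) (hA : InNP A) :
    InNE (lang (Seq f A)) := by
  obtain ⟨V, p, hV, hVA⟩ := hA
  have hVp : Poly V := PIso.poly_iff.2 hV
  obtain ⟨e, he⟩ := exists_pow_bound (Polynomial.X * (Polynomial.C 4 * Polynomial.X +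
    Polynomial.C 4 * p + 4) + 1)
  set D : List Bool × List Bool → Bool := fun r =>
    decide (bits ((unbits (ℕ × (ℕ × ℕ)) r.1).getD (0, (0, 0))) = r.1) &&
      (decide (((unbits Crt r.2).getD []).length =
        ((unbits (ℕ × (ℕ × ℕ)) r.1).getD (0, (0, 0))).2.2) &&
      ck f V p ((((unbits (ℕ × (ℕ × ℕ)) r.1).getD (0, (0, 0))).1,
        ((unbits (ℕ × (ℕ × ℕ)) r.1).getD (0, (0, 0))).2.1), (unbits Crt r.2).getD [])) with hD
  have hDp : Poly D := by
    have e1 : Poly (fun r : List Bool × List Bool => r.1) := NPC.Poly.fst NPC.Poly.id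
    have e2 : Poly (fun r : List Bool × List Bool => r.2) := NPC.Poly.snd NPC.Poly.id
    have d0 : Poly (fun r : List Bool × List Bool =>
        (unbits (ℕ × (ℕ × ℕ)) r.1).getD (0, (0, 0))) :=
      NPC.Poly.optGetD (poly_unbits.comp e1) (NPC.Poly.const _)
    have d1 : Poly (fun r : List Bool × List Bool => (unbits Crt r.2).getD []) :=
      NPC.Poly.optGetD (poly_unbits.comp e2) (NPC.Poly.const _)
    have d2 := NPC.Poly.fst d0
    have d3 := NPC.Poly.snd d0
    have d4 := NPC.Poly.fst d3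
    have d5 := NPC.Poly.snd d3
    exact NPC.Poly.and (NPC.Poly.decide_eq (bits_poly.comp d0) e1) (NPC.Poly.and
      (NPC.Poly.decide_eq (NPC.Poly.length d1) d5)
      ((ck_poly p hf hVp).comp (NPC.Poly.pair (NPC.Poly.pair d2 d4) d1)))
  refine ⟨fun z => [D (unpair z)], e, polyTime_of_poly (hDp.comp poly_unpair), fun z => ?_⟩
  simp only [unpair_pairBits, List.cons.injEq, and_true]
  constructor
  · rintro ⟨⟨n, a, k⟩, hq, xs, h1, h2, h3⟩
    simp only at h1 h2 h3
    subst hq
    obtain ⟨ws, h4, _, h6, h7⟩ := ck_of_seq (f := f) (V := V) (p := p) hVA h1 h2 h3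
    refine ⟨bits ws, ?_, ?_⟩
    · rw [bits_length, bits_length]
      set s := sz (n, a, k) with hs
      have hs2 : s = sz n + (sz a + sz k + 1) + 1 := by
        rw [hs, sz_pair, sz_pair]
      have h8 := he (2 ^ (s + 1)) (by
        calc 2 = 2 ^ 1 := (pow_one 2).symm
          _ ≤ _ := Nat.pow_le_pow_right (by norm_num) (by omega))
      have hn : n ≤ 2 ^ (s + 1) := by
        have h9 : n < 2 ^ n.size := Nat.lt_size_self n
        have h10 := size_le_sz n
        have h11 : 2 ^ n.size ≤ 2 ^ (s + 1) := Nat.pow_le_pow_right (by norm_num) (by omega)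
        omega
      have hk : k ≤ 2 ^ (s + 1) := by
        have h9 : k < 2 ^ k.size := Nat.lt_size_self k
        have h10 := size_le_sz k
        have h11 : 2 ^ k.size ≤ 2 ^ (s + 1) := Nat.pow_le_pow_right (by norm_num) (by omega)
        omega
      have h9 := eval_mono p hn
      have h10 : k * (4 * n + 4 * p.eval n + 4) ≤
          2 ^ (s + 1) * (4 * 2 ^ (s + 1) + 4 * p.eval (2 ^ (s + 1)) + 4) :=
        Nat.mul_le_mul hk (by omega)
      simp only [Polynomial.eval_add, Polynomial.eval_mul, Polynomial.eval_C, Polynomial.eval_X,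
        Polynomial.eval_one, Polynomial.eval_ofNat] at h8
      rw [mul_comm e (s + 1), pow_mul]
      omega
    · simp only [hD, unbits_bits, Option.getD_some, Bool.and_eq_true, decide_eq_true_eq]
      exact ⟨trivial, h4, h6⟩
  · rintro ⟨w, _, h⟩
    simp only [hD, Bool.and_eq_true, decide_eq_true_eq] at h
    obtain ⟨h1, h2, h3⟩ := h
    obtain ⟨h4, h5⟩ := seq_of_ck hVA h3
    refine ⟨_, h1, ((unbits Crt w).getD []).map Prod.fst, ?_, h4, ?_⟩
    · rw [List.length_map]
      exact h2
    · rw [h5]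
      exact h2

end Pool.Agent.TH682.HS
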